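import Mathlib
import Pool.Agent.Q103.SD.Monic

/-!
# Lower bounds for `|Λ - 1|`, `Λ` a product of powers of numbers with small digits
-/

set_option autoImplicit false

namespace Pool.Agent.Q103.LW

open Polynomial Finset Pool.Agent.Q103.SD

theorem zpow_split {x : ℝ} (hx : x ≠ 0) (b : ℤ) :
    x ^ b * x ^ (-b).toNat = x ^ b.toNat := by
  rw [← zpow_natCast, ← zpow_natCast, ← zpow_add₀ hx]
  congr 1
  omega

/-- **The bound for the numbers with small digits.** -/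
theorem lw {K N t : ℕ} {H : ℝ} (hH : 1 ≤ H) (hN : 1 ≤ N) (ht16 : 16 ≤ t)
    (ht : 8 * H * (N * H) ^ (K + 1) ≤ t) {n : ℕ} {F : Fin n → ℤ[X]} {β γ : ℤ}
    (hD : DataM t K H F β γ) (B : Fin n → ℤ) (hB : ∑ i, (B i).natAbs ≤ N) (hB0 : ∃ i, B i ≠ 0)
    (hΛ : (γ : ℝ) / β * ∏ i, (((F i).eval (t : ℤ) : ℤ) : ℝ) ^ B i ≠ 1) :
    (t : ℝ) ≤ 4 * H * 2 ^ K * (|(γ : ℝ) / β * ∏ i, (((F i).eval (t : ℤ) : ℤ) : ℝ) ^ B i - 1| *
      ∏ i ∈ univ.filter (fun i => B i ≠ 0), |(((F i).eval (t : ℤ) : ℤ) : ℝ)|) := by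
  have hNR : (1 : ℝ) ≤ N := by exact_mod_cast hN
  have hNH : 1 ≤ N * H := by nlinarith
  have hpow : 1 ≤ ((N : ℝ) * H) ^ (K + 1) := one_le_pow₀ hNH
  have hHt : 4 * H ≤ t := by nlinarith
  have htR : (16 : ℝ) ≤ t := by exact_mod_cast ht16
  have hF0 : ∀ i, F i ≠ 0 := fun i h => by
    have := hD.pos i
    rw [h, natDegree_zero] at this
    omega
  have hq : ∀ i, (((F i).eval (t : ℤ) : ℤ) : ℝ) ≠ 0 := by
    intro i h
    have h1 := (value_size (t := t) (by omega) (by linarith) hHt (hD.coeff i) (hF0 i)).1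
    rw [h, abs_zero] at h1
    have : (0 : ℝ) < (t : ℝ) ^ (F i).natDegree := by positivity
    linarith
  obtain ⟨c, hc⟩ : ∃ c : Fin n → ℕ, ∀ i, c i = (B i).toNat := ⟨_, fun i => rfl⟩
  obtain ⟨b, hb⟩ : ∃ b : Fin n → ℕ, ∀ i, b i = (-(B i)).toNat := ⟨_, fun i => rfl⟩
  have hcN : ∑ i, c i ≤ N := le_trans (Finset.sum_le_sum fun i _ => by rw [hc]; omega) hB
  have hbN : ∑ i, b i ≤ N := le_trans (Finset.sum_le_sum fun i _ => by rw [hb]; omega) hB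
  have hβ : (β : ℝ) ≠ 0 := by exact_mod_cast hD.β0
  obtain ⟨x, hx⟩ : ∃ x : ℤ, x = β * ∏ i, (F i).eval (t : ℤ) ^ b i := ⟨_, rfl⟩
  obtain ⟨y, hy⟩ : ∃ y : ℤ, y = γ * ∏ i, (F i).eval (t : ℤ) ^ c i := ⟨_, rfl⟩
  have hx0 : (x : ℝ) ≠ 0 := by
    rw [hx]
    push_cast
    exact mul_ne_zero hβ (Finset.prod_ne_zero_iff.mpr fun i _ => pow_ne_zero _ (hq i))
  obtain ⟨Λ, hLd⟩ : ∃ Λ : ℝ, Λ = (γ : ℝ) / β * ∏ i, (((F i).eval (t : ℤ) : ℤ) : ℝ) ^ B i := ⟨_, rfl⟩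
  rw [← hLd] at hΛ ⊢
  have hLx : Λ * x = y := by
    rw [hLd, hx, hy]
    push_cast
    have h1 : (∏ i, (((F i).eval (t : ℤ) : ℤ) : ℝ) ^ B i) * ∏ i, (((F i).eval (t : ℤ) : ℤ) : ℝ) ^ b i =
        ∏ i, (((F i).eval (t : ℤ) : ℤ) : ℝ) ^ c i := by
      rw [← Finset.prod_mul_distrib]
      apply Finset.prod_congr rfl
      intro i _
      rw [hb, hc, zpow_split (hq i)]
    rw [← h1]
    field_simp
  have ha : y - x ≠ 0 := by
    intro h
    apply hΛ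
    have h1 : (y : ℝ) = x := by
      have : y = x := by omega
      rw [this]
    rw [h1] at hLx
    exact mul_right_cancel₀ hx0 (by rw [hLx, one_mul])
  have hused : used2 b c = univ.filter (fun i => B i ≠ 0) := by
    ext i
    simp only [used2, Finset.mem_filter, Finset.mem_univ, true_and, hb, hc]
    omega
  have hU : (used2 b c).Nonempty := by
    obtain ⟨i, hi⟩ := hB0
    rw [hused]
    exact ⟨i, Finset.mem_filter.mpr ⟨Finset.mem_univ _, hi⟩⟩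
  have hmain := small_top hD hH ht16 hHt b c hN hbN hcN ht ha (by rw [← hx, ← hy]) hU
    (x := x) (Or.inr hx)
  rw [hused] at hmain
  push_cast at hmain
  rw [Finset.abs_prod] at hmain
  have h2 : |(y : ℝ) - x| = |Λ - 1| * |(x : ℝ)| := by
    rw [← abs_mul, ← hLx]
    congr 1
    ring
  rw [h2] at hmain
  have hx1 : 0 < |(x : ℝ)| := abs_pos.mpr hx0
  have h3 : |(x : ℝ)| * t ≤ |(x : ℝ)| * (4 * H * 2 ^ K * (|Λ - 1| *
      ∏ i ∈ univ.filter (fun i => B i ≠ 0), |(((F i).eval (t : ℤ) : ℤ) : ℝ)|)) := by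
    refine hmain.trans (le_of_eq ?_)
    ring
  exact le_of_mul_le_mul_left h3 hx1

end Pool.Agent.Q103.LW
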